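import Pool.Agent.Helper90.IASFinal

namespace Pool.Agent.Results.MP_48d09b_al.ExistsNotIAS

open Pool.Agent.Helper90.IAS

/-- There is a finitely generated residually finite group `G` whose outer automorphism group is
infinite and residually finite, but which is not inner automorphism separable. -/
theorem result : ∃ (G : Type) (_ : Group G), Group.FG G ∧ Group.ResiduallyFinite G ∧
    Infinite (Out G) ∧ Group.ResiduallyFinite (Out G) ∧ ¬ IsIAS G :=
  main

end Pool.Agent.Results.MP_48d09b_al.ExistsNotIAS
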